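import Pool.Agent.Helper39.Uct.Goals3

/-!
# Packet HL: a Hirsch length
-/

namespace Pool.Agent.Helper43.Uct2

open Pool.Agent.Helper39.Uct

/-- A monotone rank function on the subgroups, which drops strictly when passing to the kernel of
a nontrivial homomorphism to `ℤ`. -/
def HR (Q : Type) [Group Q] (h : Subgroup Q → ℕ) : Prop :=
  Monotone h ∧ ∀ (M S : Subgroup Q), S ≤ M → ∀ f : M →* Multiplicative ℤ, (∃ x, f x ≠ 1) →
    (∀ m : M, f m = 1 ↔ (m : Q) ∈ S) → h S < h M

theorem hr_ext {Q : Type} [Group Q] (N : Subgroup Q) [N.Normal] {h1 : Subgroup N → ℕ}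
    {h2 : Subgroup (Q ⧸ N) → ℕ} (H1 : HR N h1) (H2 : HR (Q ⧸ N) h2) :
    HR Q (fun M => h1 (M.subgroupOf N) + h2 (M.map (QuotientGroup.mk' N))) := by
  classical
  refine ⟨?_, ?_⟩
  · intro M M' hM
    exact add_le_add (H1.1 (Subgroup.subgroupOf_mono _ hM)) (H2.1 (Subgroup.map_mono hM))
  · intro M S hS f hf hk
    have hS1 : S.subgroupOf N ≤ M.subgroupOf N := Subgroup.subgroupOf_mono _ hS
    have hS2 : S.map (QuotientGroup.mk' N) ≤ M.map (QuotientGroup.mk' N) := Subgroup.map_mono hS
    by_cases hc : ∃ x : Q, ∃ hx : x ∈ M, x ∈ N ∧ f ⟨x, hx⟩ ≠ 1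
    · -- the restriction to `N` is nontrivial
      obtain ⟨x, hxM, hxN, hx1⟩ := hc
      let g : (M.subgroupOf N) →* Multiplicative ℤ :=
        f.comp ((N.subtype.subgroupComap M))
      have h3 := H1.2 (M.subgroupOf N) (S.subgroupOf N) hS1 g
        ⟨⟨⟨x, hxN⟩, hxM⟩, hx1⟩ (by
          intro m
          rw [Subgroup.mem_subgroupOf]
          exact hk ⟨((m : N) : Q), m.2⟩)
      exact add_lt_add_of_lt_of_le h3 (H2.1 hS2)
    · push Not at hc
      -- `f` factors through the image in `Q ⧸ N`
      let p : M →* M.map (QuotientGroup.mk' N) := (QuotientGroup.mk' N).subgroupMap M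
      have hp : Function.Surjective p := (QuotientGroup.mk' N).subgroupMap_surjective M
      have hpk : p.ker ≤ f.ker := by
        intro m hm
        rw [MonoidHom.mem_ker] at hm ⊢
        have h4 : QuotientGroup.mk' N (m : Q) = 1 := congrArg Subtype.val hm
        rw [← MonoidHom.mem_ker, QuotientGroup.ker_mk'] at h4
        exact hc m m.2 h4
      let g : M.map (QuotientGroup.mk' N) →* Multiplicative ℤ :=
        p.liftOfSurjective hp ⟨f, hpk⟩
      have hg : ∀ m, g (p m) = f m := fun m =>
        p.liftOfRightInverse_comp_apply _ _ ⟨f, hpk⟩ m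
      have h3 := H2.2 (M.map (QuotientGroup.mk' N)) (S.map (QuotientGroup.mk' N)) hS2 g
        (by
          obtain ⟨x, hx⟩ := hf
          exact ⟨p x, by rwa [hg]⟩)
        (by
          intro m
          obtain ⟨m', rfl⟩ := hp m
          rw [hg, hk]
          constructor
          · intro hm
            exact ⟨_, hm, rfl⟩
          · rintro ⟨s, hs, hsm⟩
            have h5 : (m' : Q)⁻¹ * s ∈ N := by
              have h6 : QuotientGroup.mk' N s = QuotientGroup.mk' N (m' : Q) := hsm
              rw [← QuotientGroup.ker_mk' N, MonoidHom.mem_ker, map_mul, map_inv, h6,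
                inv_mul_cancel]
            have h7 := hc ((m' : Q)⁻¹ * s) (M.mul_mem (M.inv_mem m'.2) (hS hs)) h5
            have h8 := (hk _).1 h7
            have h9 : (m' : Q) = s * ((m' : Q)⁻¹ * s)⁻¹ := by group
            rw [h9]
            exact S.mul_mem hs (S.inv_mem h8))
      exact add_lt_add_of_le_of_lt (H1.1 hS1) h3

theorem hr_ab {A : Type} [CommGroup A] (hA : Group.FG A) : ∃ h, HR A h := by
  classical
  have hfin : Module.Finite ℤ (Additive A) := by
    rw [Module.Finite.iff_addGroup_fg]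
    exact GroupFG.iff_add_fg.1 hA
  have hn : IsNoetherian ℤ (Additive A) := inferInstance
  let r : Subgroup A → Submodule ℤ (Additive A) :=
    fun M => AddSubgroup.toIntSubmodule (Subgroup.toAddSubgroup M)
  have hr : ∀ (M : Subgroup A) (x : A), Additive.ofMul x ∈ r M ↔ x ∈ M := fun M x => Iff.rfl
  refine ⟨fun M => Module.finrank ℤ (r M), ?_, ?_⟩
  · intro M M' hM
    exact Submodule.finrank_mono (fun x hx => hM hx)
  · intro M S hS f hf hk
    let g : r M →ₗ[ℤ] ℤ := (AddMonoidHom.toIntLinearMap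
      { toFun := fun x => Multiplicative.toAdd (f ⟨Additive.toMul (x : Additive A), x.2⟩)
        map_zero' := by
          have : (⟨Additive.toMul ((0 : r M) : Additive A), (0 : r M).2⟩ : M) = 1 := rfl
          rw [this, map_one]
          rfl
        map_add' := by
          intro x y
          have : (⟨Additive.toMul ((x + y : r M) : Additive A), (x + y).2⟩ : M) =
            ⟨Additive.toMul (x : Additive A), x.2⟩ * ⟨Additive.toMul (y : Additive A), y.2⟩ := rfl
          rw [this, map_mul]
          rfl })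
    have hg : ∀ x : r M, g x = Multiplicative.toAdd (f ⟨Additive.toMul (x : Additive A), x.2⟩) :=
      fun x => rfl
    have h1 := (LinearMap.ker g).finrank_quotient_add_finrank
    rw [g.quotKerEquivRange.finrank_eq] at h1
    have h2 : Module.finrank ℤ (LinearMap.ker g) = Module.finrank ℤ (r S) := by
      let e : (LinearMap.ker g) ≃ₗ[ℤ] (r S) := LinearEquiv.ofBijective
        (LinearMap.codRestrict (r S) ((r M).subtype.comp (LinearMap.ker g).subtype) (by
          intro x
          have h3 : g x = 0 := x.2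
          rw [hg] at h3
          exact (hk _).1 h3)) (by
        refine ⟨?_, ?_⟩
        · intro x y hxy
          have h3 : ((x : r M) : Additive A) = ((y : r M) : Additive A) :=
            congrArg (fun z : r S => (z : Additive A)) hxy
          exact Subtype.ext (Subtype.ext h3)
        · intro y
          refine ⟨⟨⟨y, hS y.2⟩, ?_⟩, rfl⟩
          rw [LinearMap.mem_ker, hg]
          exact (hk ⟨_, hS y.2⟩).2 y.2)
      exact e.finrank_eq
    have h3 : 0 < Module.finrank ℤ (LinearMap.range g) := by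
      have : Nontrivial (LinearMap.range g) := by
        obtain ⟨x, hx⟩ := hf
        refine ⟨⟨⟨g ⟨Additive.ofMul (x : A), x.2⟩, ⟨_, rfl⟩⟩, 0, ?_⟩⟩
        intro h4
        have h5 : g ⟨Additive.ofMul (x : A), x.2⟩ = 0 := congrArg Subtype.val h4
        rw [hg] at h5
        exact hx h5
      exact Module.finrank_pos
    show Module.finrank ℤ (r S) < Module.finrank ℤ (r M)
    omega

theorem hr_iso {Q Q' : Type} [Group Q] [Group Q'] (e : Q ≃* Q') {h : Subgroup Q → ℕ}
    (H : HR Q h) : ∃ h', HR Q' h' := by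
  refine ⟨fun M => h (M.comap e.toMonoidHom), ?_, ?_⟩
  · intro M M' hM
    exact H.1 (Subgroup.comap_mono hM)
  · intro M S hS f hf hk
    refine H.2 (M.comap e.toMonoidHom) (S.comap e.toMonoidHom) (Subgroup.comap_mono hS)
      (f.comp (e.toMonoidHom.subgroupComap M)) ?_ ?_
    · obtain ⟨x, hx⟩ := hf
      refine ⟨⟨e.symm x, ?_⟩, ?_⟩
      · rw [Subgroup.mem_comap]
        show e (e.symm x) ∈ M
        rw [MulEquiv.apply_symm_apply]
        exact x.2
      · have : (e.toMonoidHom.subgroupComap M) ⟨e.symm x, by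
          rw [Subgroup.mem_comap]
          show e (e.symm x) ∈ M
          rw [MulEquiv.apply_symm_apply]
          exact x.2⟩ = x := Subtype.ext (e.apply_symm_apply (x : Q'))
        show f _ ≠ 1
        rw [this]
        exact hx
    · intro m
      exact hk ⟨e m, m.2⟩

theorem hr_solv : ∀ (n : ℕ) (Q : Type) [Group Q], (∀ H : Subgroup Q, H.FG) →
    derivedSeries Q n = ⊥ → ∃ h, HR Q h := by
  intro n
  induction n with
  | zero =>
    intro Q _ _ h0
    refine ⟨fun _ => 0, fun _ _ _ => le_rfl, ?_⟩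
    intro M S hS f hf hk
    exfalso
    obtain ⟨x, hx⟩ := hf
    apply hx
    rw [derivedSeries_zero] at h0
    have h1 : (x : Q) ∈ (⊤ : Subgroup Q) := trivial
    rw [h0, Subgroup.mem_bot] at h1
    have h2 : x = 1 := Subtype.ext h1
    rw [h2, map_one]
  | succ n ih =>
    intro Q _ hfg h0
    set N : Subgroup Q := derivedSeries Q n with hN
    have hNn : N.Normal := derivedSeries_normal Q n
    have hcomm : ∀ a b : N, a * b = b * a := by
      intro a b
      rw [derivedSeries_succ, ← hN, Subgroup.commutator_eq_bot_iff_le_centralizer] at h0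
      have h1 := h0 a.2
      rw [Subgroup.mem_centralizer_iff] at h1
      exact Subtype.ext (h1 b b.2).symm
    have hN1 : ∃ h1, HR N h1 := by
      let _ : CommGroup N := { (inferInstance : Group N) with mul_comm := hcomm }
      exact hr_ab ((Group.fg_iff_subgroup_fg N).2 (hfg N))
    have hQ1 : ∃ h2, HR (Q ⧸ N) h2 := by
      refine ih (Q ⧸ N) ?_ ?_
      · intro H
        have h2 : ((H.comap (QuotientGroup.mk' N)).map (QuotientGroup.mk' N)).FG := by
          have h3 := hfg (H.comap (QuotientGroup.mk' N))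
          rw [Subgroup.fg_iff_submonoid_fg] at h3 ⊢
          exact h3.map (QuotientGroup.mk' N)
        rwa [Subgroup.map_comap_eq_self_of_surjective (QuotientGroup.mk'_surjective N)] at h2
      · rw [← map_derivedSeries_eq (QuotientGroup.mk'_surjective N) n, ← hN, eq_bot_iff]
        rintro _ ⟨x, hx, rfl⟩
        rw [Subgroup.mem_bot]
        show QuotientGroup.mk' N x = 1
        rw [← MonoidHom.mem_ker, QuotientGroup.ker_mk']
        exact hx
    obtain ⟨h1, H1⟩ := hN1
    obtain ⟨h2, H2⟩ := hQ1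
    exact ⟨_, hr_ext N H1 H2⟩

theorem hr_vpc (Q : Type) [Group Q] (hQ : VPC Q) : ∃ h, HR Q h := by
  classical
  obtain ⟨hfg, S0, hfi, hsol⟩ := hQ
  obtain ⟨n, hn⟩ := hsol.solvable
  obtain ⟨h0, H0⟩ := hr_solv n S0
    (fun H => Pool.Agent.Helper43.Uct.fg_of_map_injective S0.subtype
      (Subgroup.subtype_injective S0) H (hfg _)) hn
  refine ⟨fun M => h0 (M.subgroupOf S0), ?_, ?_⟩
  · intro M M' hM
    exact H0.1 (Subgroup.subgroupOf_mono _ hM)
  · intro M S hS f hf hk
    refine H0.2 (M.subgroupOf S0) (S.subgroupOf S0) (Subgroup.subgroupOf_mono _ hS)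
      (f.comp (S0.subtype.subgroupComap M)) ?_ ?_
    · obtain ⟨x, hx⟩ := hf
      obtain ⟨k, hk0, hkS⟩ : ∃ k : ℕ, 0 < k ∧ (x : Q) ^ k ∈ S0 := by
        obtain ⟨k, hk1, -, hk2⟩ := Subgroup.exists_pow_mem_of_index_ne_zero
          hfi.index_ne_zero (x : Q)
        exact ⟨k, hk1, hk2⟩
      refine ⟨⟨⟨(x : Q) ^ k, hkS⟩, M.pow_mem x.2 k⟩, ?_⟩
      show f ⟨(x : Q) ^ k, M.pow_mem x.2 k⟩ ≠ 1
      have h1 : (⟨(x : Q) ^ k, M.pow_mem x.2 k⟩ : M) = x ^ k := rfl
      rw [h1, map_pow]
      intro h2
      apply hx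
      have h3 : (k : ℤ) * Multiplicative.toAdd (f x) = 0 := by
        have h4 := congrArg Multiplicative.toAdd h2
        simpa using h4
      have h5 : Multiplicative.toAdd (f x) = 0 := by
        rcases mul_eq_zero.1 h3 with h6 | h6
        · exfalso
          omega
        · exact h6
      exact h5
    · intro m
      rw [Subgroup.mem_subgroupOf]
      exact hk ⟨((m : S0) : Q), m.2⟩

/-- Packet HL. -/
theorem hl : S_HL := by
  intro Q _ hQ
  obtain ⟨h, H⟩ := hr_vpc Q hQ
  refine ⟨h, ?_⟩
  intro M S hS f hf hk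
  refine H.2 M S hS f ?_ hk
  obtain ⟨x, hx⟩ := hf (Multiplicative.ofAdd 1)
  refine ⟨x, ?_⟩
  rw [hx]
  intro h1
  have h2 : (1 : ℤ) = 0 := congrArg Multiplicative.toAdd h1
  exact absurd h2 one_ne_zero

end Pool.Agent.Helper43.Uct2
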