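import Pool.Agent.Helper43.Uct2.HL

/-!
# Packet PZI: the induction principle
-/

namespace Pool.Agent.Helper43.Uct2

open Pool.Agent.Helper39.Uct

/-- All infinite sections map onto `ℤ`. -/
def SecZ (Q : Type) [Group Q] : Prop :=
  ∀ (M : Subgroup Q) (G : Type) [Group G] (p : M →* G), Function.Surjective p →
    Finite G ∨ ∃ f : G →* Multiplicative ℤ, Function.Surjective f

theorem pz_iff (Q : Type) [Group Q] : PZ Q ↔ VPC Q ∧ SecZ Q := by
  constructor
  · rintro ⟨h1, h2⟩
    refine ⟨h1, ?_⟩
    intro M G _ p hp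
    let e : M ⧸ p.ker ≃* G := QuotientGroup.quotientKerEquivOfSurjective p hp
    rcases h2 M p.ker with h3 | ⟨f, hf⟩
    · left
      exact Finite.of_equiv _ e.toEquiv
    · right
      exact ⟨f.comp e.symm.toMonoidHom, hf.comp e.symm.surjective⟩
  · rintro ⟨h1, h2⟩
    exact ⟨h1, fun M K _ => h2 M (M ⧸ K) (QuotientGroup.mk' K) (QuotientGroup.mk'_surjective K)⟩

theorem secZ_of_injective {Q' Q : Type} [Group Q'] [Group Q] (f : Q' →* Q)
    (hf : Function.Injective f) (h : SecZ Q) : SecZ Q' := by
  intro M G _ p hp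
  let e : M ≃* M.map f := M.equivMapOfInjective f hf
  exact h (M.map f) G (p.comp e.symm.toMonoidHom) (hp.comp e.symm.surjective)

theorem secZ_of_surjective {Q Q' : Type} [Group Q] [Group Q'] (f : Q →* Q')
    (hf : Function.Surjective f) (h : SecZ Q) : SecZ Q' := by
  intro M G _ p hp
  refine h (M.comap f) G (p.comp (f.subgroupComap M)) ?_
  refine hp.comp ?_
  intro y
  obtain ⟨x, hx⟩ := hf y
  refine ⟨⟨x, ?_⟩, Subtype.ext hx⟩
  rw [Subgroup.mem_comap, hx]
  exact y.2

theorem pz_of_injective {Q' Q : Type} [Group Q'] [Group Q] (f : Q' →* Q)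
    (hf : Function.Injective f) (h : PZ Q) : PZ Q' := by
  rw [pz_iff] at h ⊢
  exact ⟨Pool.Agent.Helper43.Uct.vpc_of_injective f hf h.1, secZ_of_injective f hf h.2⟩

theorem pz_of_surjective {Q Q' : Type} [Group Q] [Group Q'] (f : Q →* Q')
    (hf : Function.Surjective f) (h : PZ Q) : PZ Q' := by
  rw [pz_iff] at h ⊢
  exact ⟨Pool.Agent.Helper43.Uct.vpc_of_surjective f hf h.1, secZ_of_surjective f hf h.2⟩

theorem pz_subgroup {Q : Type} [Group Q] (h : PZ Q) (M : Subgroup Q) : PZ M :=
  pz_of_injective M.subtype (Subgroup.subtype_injective M) h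

theorem pz_quotient {Q : Type} [Group Q] (h : PZ Q) (K : Subgroup Q) [K.Normal] : PZ (Q ⧸ K) :=
  pz_of_surjective (QuotientGroup.mk' K) (QuotientGroup.mk'_surjective K) h

/-- Sections of a subgroup are sections of the group. -/
theorem section_map {Q : Type} [Group Q] (M : Subgroup Q) (M' : Subgroup M) (K' : Subgroup M')
    [K'.Normal] (hK : K' ≠ ⊥) : ∃ (M2 : Subgroup Q) (K2 : Subgroup M2) (_ : K2.Normal),
      K2 ≠ ⊥ ∧ Nonempty (M2 ⧸ K2 ≃* M' ⧸ K') := by
  let e : M' ≃* M'.map M.subtype := M'.equivMapOfInjective M.subtype (Subgroup.subtype_injective M)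
  have hn : (K'.map e.toMonoidHom).Normal := Subgroup.Normal.map inferInstance _ e.surjective
  refine ⟨M'.map M.subtype, K'.map e.toMonoidHom, hn, ?_, ?_⟩
  · intro h
    exact hK ((Subgroup.map_eq_bot_iff_of_injective K' e.injective).1 h)
  · exact ⟨(QuotientGroup.congr K' (K'.map e.toMonoidHom) e rfl).symm⟩

/-- Packet PZI. -/
theorem pzi : S_HL → S_PZI := by
  intro hHL P hiso hstep Q _ hQ
  refine Pool.Agent.Helper43.Uct.gi (fun Q _ => PZ Q → P Q) ?_ ?_ Q hQ.1 hQ
  · intro Q Q' _ _ e h hQ'
    exact hiso Q Q' e (h (pz_of_injective e.toMonoidHom e.injective hQ'))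
  · intro Q _ hV ih hPZ
    obtain ⟨h, hh⟩ := hHL Q hV
    have key : ∀ n : ℕ, ∀ M : Subgroup Q, h M = n → P M := by
      intro n
      induction n using Nat.strong_induction_on with
      | _ n ihn =>
        intro M hM
        refine hstep M (pz_subgroup hPZ M) ?_ ?_
        · intro M' K' _ hK
          obtain ⟨M2, K2, _, hK2, ⟨e⟩⟩ := section_map M M' K' hK
          exact hiso _ _ e (ih M2 K2 hK2 (pz_quotient (pz_subgroup hPZ M2) K2))
        · intro f hf
          let e : f.ker ≃* f.ker.map M.subtype :=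
            f.ker.equivMapOfInjective M.subtype (Subgroup.subtype_injective M)
          have h1 : h (f.ker.map M.subtype) < h M := by
            refine hh M (f.ker.map M.subtype) ?_ f hf ?_
            · rintro _ ⟨x, -, rfl⟩
              exact x.2
            · intro m
              constructor
              · intro hm
                exact ⟨m, hm, rfl⟩
              · rintro ⟨x, hx, hxm⟩
                have h2 : x = m := Subtype.ext hxm
                rw [← h2]
                exact hx
          exact hiso _ _ e.symm (ihn _ (hM ▸ h1) _ rfl)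
    exact hiso _ _ Subgroup.topEquiv (key _ ⊤ rfl)

end Pool.Agent.Helper43.Uct2
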